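import Pool.Agent.H8.NP.Fin

/-!
# Nilpotence of `P^0`-images in Ext over the mod 2 Steenrod algebra

The cobar complex `Cobar p s = P_* ^ ⊗ s` of the polynomial part `P_*` of the dual Steenrod algebra
(Milnor coproduct), its differential `dC`, the product `cup` (juxtaposition), its powers `cpow`,
the map `P0` induced by `x ↦ x ^ p` and the coboundaries `IsCob` are defined in
`Pool/Agent/H8/NP/Cobar.lean`.  For `p = 2` the cohomology of this complex is Ext over the full
mod 2 Steenrod algebra.
-/

namespace Pool.Agent.Results.MP_9cbe1e_gt.ModTwo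

open Pool.Agent.H8.NP

/-- At `p = 2`: for every class `z` of positive homological degree, the class `P0 z` is nilpotent. -/
theorem result (s : ℕ) (hs : 0 < s) (z : Cobar 2 s) (hz : dC 2 s z = 0) :
    ∃ m : ℕ, 0 < m ∧ IsCob (cpow (P0 z) m) :=
  nilpotent_P0 s hs z hz

end Pool.Agent.Results.MP_9cbe1e_gt.ModTwo
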