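import Pool.Agent.H34.P0.Main
import Pool.Agent.H34.P0.Wrap

/-!
# `P^0`-images in Ext over the polynomial part of the Steenrod algebra need not be nilpotent

The cobar complex of `P_* = F_p[ξ_1, ξ_2, ...]`, the groups `ExtP p s t = Ext^{s,t}_P(F_p, F_p)`,
the Yoneda product, the operation `P^0` and the powers of a class are defined in
`Pool/Agent/H34/P0/Cobar.lean` (for every prime `p`).  The theorem is the negation of Q1: at the
prime `p = 3` there is a class `z` of positive homological degree such that `P^0 z` is not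
nilpotent.
-/

set_option autoImplicit false

namespace Pool.Agent.Results.MP_9cbe1e_gt.NotNilpotentThree

/-- Q1 is false at `p = 3`: there are `s > 0`, `t` and `z ∈ Ext^{s,t}_P(F_3, F_3)` such that
`(P^0 z)^m ≠ 0` for every `m ≥ 1`. -/
theorem result :
    ∃ s t : ℕ, 0 < s ∧ ∃ z : CobarP.ExtP 3 s t,
      ∀ m : ℕ, 1 ≤ m → CobarP.ExtP.pow 3 (CobarP.ExtP.P0 3 z) m ≠ 0 := by
  obtain ⟨s, t, hs, z, hz⟩ := P0N.wrap P0N.not_HQ
  exact ⟨s, t, hs, z, fun m hm h => hz ⟨m, hm, h⟩⟩

end Pool.Agent.Results.MP_9cbe1e_gt.NotNilpotentThree
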